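import Pool.Agent.LRG.StmtsC

/-!
# Squad LRG, row GRZ: the Gram determinant of the real functionals
-/

set_option autoImplicit false

open Polynomial NumberField

namespace Pool.Agent.LRG.H7

/-- Determinant of a matrix with entries `Δ i * Δ i' * G i i'`. -/
theorem det_scale {r : ℕ} {E : Type} [Field E] (d : Fin r → E) (G : Matrix (Fin r) (Fin r) E) :
    (Matrix.of fun i i' => d i * d i' * G i i').det = (∏ i, d i) * (∏ i, d i) * G.det := by
  have h1 : (Matrix.of fun i i' => d i * d i' * G i i') =
      Matrix.of fun i i' => d i * (Matrix.of fun i i' => d i' * G i i') i i' := by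
    ext i i'
    simp [mul_assoc]
  rw [h1, Matrix.det_mul_column, Matrix.det_mul_row]
  ring

theorem grz (hccv : CX.CcvStmt) : CX.GrzStmt := by
  classical
  intro n r q κ _ y v π N hv hy hT Z
  obtain ⟨hcc, hd⟩ := hccv n r ℂ κ y v π hv hy
  set d : Fin r → ℂ := fun i => ∏ j₁, lagD (fun j => v i (π i j)) j₁ with hdd
  -- the integer matrix
  let a : (Fin q → ℤ) → Fin r → κ → ℤ := fun W i σ => ∑ l, N (i, (π i).symm σ) l * W l
  let G : (Fin q → ℤ) → Matrix (Fin r) (Fin r) ℤ := fun W =>
    Matrix.of fun i i' => ∑ σ, a W i σ * a W i' σ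
  have h1 : ∀ W : Fin q → ℤ, (G W).det = 0 := by
    intro W
    have h2 := hT W
    have h3 : (Matrix.of fun i i' : Fin r => ∑ j : Fin n, ∑ j' : Fin n,
        cc y (fun i j => v i (π i j)) i i' j j' * ((∑ l, N (i, j) l * W l : ℤ) : ℂ) *
          ((∑ l, N (i', j') l * W l : ℤ) : ℂ)) =
        Matrix.of fun i i' => d i * d i' * ((G W).map (Int.castRingHom ℂ)) i i' := by
      ext i i'
      simp only [Matrix.of_apply, Matrix.map_apply, G, hcc]
      rw [← Equiv.sum_comp (π i).symm]
      rw [map_sum, Finset.mul_sum]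
      refine Finset.sum_congr rfl fun σ _ => ?_
      rw [← Equiv.sum_comp (π i').symm]
      rw [Finset.sum_eq_single σ]
      · rw [Equiv.apply_symm_apply, Equiv.apply_symm_apply, if_pos rfl, map_mul]
        simp only [eq_intCast, a, hdd]
        ring
      · intro σ' _ hne
        rw [Equiv.apply_symm_apply, Equiv.apply_symm_apply, if_neg (fun h => hne h.symm),
          zero_mul, zero_mul]
      · intro h
        exact absurd (Finset.mem_univ _) h
    rw [h3, det_scale] at h2
    have h4 : (∏ i, d i) ≠ 0 := Finset.prod_ne_zero_iff.2 fun i _ => hd i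
    have h5 : ((G W).map (Int.castRingHom ℂ)).det = 0 := by
      rcases mul_eq_zero.1 h2 with h | h
      · rcases mul_eq_zero.1 h with h | h <;> exact absurd h h4
      · exact h
    have h6 := RingHom.map_det (Int.castRingHom ℂ) (G W)
    rw [RingHom.mapMatrix_apply, h5] at h6
    simpa using h6
  -- the polynomial
  let P : Matrix (Fin r) (Fin r) (MvPolynomial (Fin q) ℤ) := Matrix.of fun i i' =>
    ∑ σ : κ, (∑ l, MvPolynomial.C (N (i, (π i).symm σ) l) * MvPolynomial.X l) *
      (∑ l, MvPolynomial.C (N (i', (π i').symm σ) l) * MvPolynomial.X l)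
  have h7 : P.det = 0 := by
    apply MvPolynomial.funext
    intro W
    rw [map_zero]
    have h8 := RingHom.map_det (MvPolynomial.eval W) P
    rw [h8]
    have h9 : (MvPolynomial.eval W).mapMatrix P = G W := by
      ext i i'
      simp [P, G, a, RingHom.mapMatrix_apply]
    rw [h9, h1 W]
  have h10 := RingHom.map_det (MvPolynomial.aeval Z : MvPolynomial (Fin q) ℤ →ₐ[ℤ] ℝ).toRingHom P
  rw [h7, map_zero] at h10
  have h11 : (MvPolynomial.aeval Z : MvPolynomial (Fin q) ℤ →ₐ[ℤ] ℝ).toRingHom.mapMatrix P =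
      (Matrix.of fun i i' : Fin r => ∑ σ : κ, (∑ l, (N (i, (π i).symm σ) l : ℝ) * Z l) *
      (∑ l, (N (i', (π i').symm σ) l : ℝ) * Z l)) := by
    ext i i'
    simp [P, RingHom.mapMatrix_apply]
  rw [← h11]
  exact h10.symm

end Pool.Agent.LRG.H7
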