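import Pool.Agent.LRG.StmtsB

/-!
# Squad LRG, row FGX: finite generation modulo the relations of the tower
-/

set_option autoImplicit false

open Polynomial IsLocalRing

namespace Pool.Agent.LRG.H7

/-- The relation ideal is finitely generated. -/
theorem jt_fg (D : ℕ → ℕ) {m : ℕ} {O : Type} [CommRing O]
    (s : (j : ℕ) → (Fin (m + 1) → Fin (D j + 1)) → O) :
    ∀ (k : ℕ) (x : Fin (m + k) → O), (Jt D s k x).FG
  | 0, _ => Submodule.fg_bot
  | k + 1, x => by
      refine Submodule.FG.sup (jt_fg D s k _) ?_
      exact Submodule.fg_span_singleton _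

/-- A power series with coefficients in a finitely generated ideal. -/
theorem mem_map_C {A B : Type} [CommRing A] [CommRing B] (e : B ≃+* PowerSeries A) (J : Ideal A)
    (hJ : J.FG) (f : B) (hf : ∀ n, PowerSeries.coeff n (e f) ∈ J) :
    f ∈ J.map ((e.symm : PowerSeries A →+* B).comp (PowerSeries.C (R := A))) := by
  obtain ⟨n, h, hh⟩ := Submodule.fg_iff_exists_fin_generating_family.1 hJ
  have h1 : ∀ j : ℕ, ∃ u : Fin n → A, ∑ l, u l * h l = PowerSeries.coeff j (e f) := by
    intro j
    have h2 := hf j
    rw [← hh] at h2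
    obtain ⟨u, hu⟩ := (Submodule.mem_span_range_iff_exists_fun A).1 h2
    exact ⟨u, by simpa using hu⟩
  choose u hu using h1
  have h3 : f = ∑ l, e.symm (PowerSeries.mk fun j => u j l) *
      ((e.symm : PowerSeries A →+* B).comp (PowerSeries.C (R := A))) (h l) := by
    apply e.injective
    rw [map_sum]
    ext j
    rw [map_sum, ← hu j]
    refine Finset.sum_congr rfl fun l _ => ?_
    simp
  rw [h3]
  refine Ideal.sum_mem _ fun l _ => Ideal.mul_mem_left _ _ ?_
  refine Ideal.mem_map_of_mem _ ?_
  rw [← hh]
  exact Submodule.subset_span ⟨l, rfl⟩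

/-- `gv` commutes with ring homomorphisms. -/
theorem map_gv {A B : Type} [CommRing A] [CommRing B] (Φ : A →+* B) {n D : ℕ}
    (c : (Fin n → Fin (D + 1)) → A) (V : Fin n → A) :
    Φ (gv c V) = gv (fun α => Φ (c α)) (fun i => Φ (V i)) := by
  simp [gv, map_sum, map_mul, map_prod, map_pow]

theorem fgx : FgxStmt := by
  intro hW hJ R _ _ hR D m k s
  induction k with
  | zero =>
    intro _
    refine ⟨AlgHom.id R _, 1, fun _ => 1, fun i => rfl, fun f => ⟨fun _ => f, ?_⟩⟩
    simp [Jt]
  | succ k ih =>
    intro hs
    obtain ⟨ψ, n₀, b, hψ, hgen⟩ := ih fun j hj => hs j (by omega)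
    obtain ⟨d, θ, hθ, hdiv⟩ := hW R hR m (D k) (s k) (hs k (by omega))
    let E := MvPowerSeries.finSuccEquiv R (m + k)
    let E' := MvPowerSeries.finSuccEquiv R m
    let ι : MvPowerSeries (Fin (m + k)) R →+* MvPowerSeries (Fin (m + k + 1)) R :=
      ((E.toRingEquiv.symm : PowerSeries (MvPowerSeries (Fin (m + k)) R) →+*
        MvPowerSeries (Fin (m + k + 1)) R)).comp (PowerSeries.C)
    have hEι : ∀ a, E (ι a) = PowerSeries.C a := by
      intro a
      change E (E.symm (PowerSeries.C a)) = _
      exact E.apply_symm_apply _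
    have hιX : ∀ i, ι (MvPowerSeries.X i) = MvPowerSeries.X i.succ := by
      intro i
      apply E.injective
      rw [hEι]
      exact (MvPowerSeries.finSuccEquiv_X_succ i).symm
    have hιC : ∀ r, ι (MvPowerSeries.C r) = MvPowerSeries.C r := by
      intro r
      apply E.injective
      rw [hEι]
      exact (MvPowerSeries.finSuccEquiv_C r).symm
    let Ψ : MvPowerSeries (Fin (m + 1)) R →+* MvPowerSeries (Fin (m + k + 1)) R :=
      ((E.toRingEquiv.symm : PowerSeries (MvPowerSeries (Fin (m + k)) R) →+*
        MvPowerSeries (Fin (m + k + 1)) R)).comp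
        ((PowerSeries.map (ψ : MvPowerSeries (Fin m) R →+* MvPowerSeries (Fin (m + k)) R)).comp
          (E' : MvPowerSeries (Fin (m + 1)) R →+* PowerSeries (MvPowerSeries (Fin m) R)))
    have hEΨ : ∀ a, E (Ψ a) = PowerSeries.map
        (ψ : MvPowerSeries (Fin m) R →+* MvPowerSeries (Fin (m + k)) R) (E' a) := by
      intro a
      change E (E.symm _) = _
      exact E.apply_symm_apply _
    have hΨX0 : Ψ (MvPowerSeries.X 0) = MvPowerSeries.X 0 := by
      apply E.injective
      rw [hEΨ]
      rw [show E' (MvPowerSeries.X 0) = PowerSeries.X from MvPowerSeries.finSuccEquiv_X_zero,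
        show E (MvPowerSeries.X 0) = PowerSeries.X from MvPowerSeries.finSuccEquiv_X_zero,
        PowerSeries.map_X]
    have hΨXs : ∀ i : Fin m, Ψ (MvPowerSeries.X i.succ) =
        yv D k (Fin.tail (n := m + k) (α := fun _ => MvPowerSeries (Fin (m + k + 1)) R)
          MvPowerSeries.X) i := by
      intro i
      have h1 : Ψ (MvPowerSeries.X i.succ) = ι (ψ (MvPowerSeries.X i)) := by
        apply E.injective
        rw [hEΨ, hEι, show E' (MvPowerSeries.X i.succ) = PowerSeries.C (MvPowerSeries.X i) from
          MvPowerSeries.finSuccEquiv_X_succ i, PowerSeries.map_C]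
        rfl
      rw [h1, hψ, (hJ D m _ _ ι (fun j α => MvPowerSeries.C (s j α)) k MvPowerSeries.X).1 i]
      congr 1
      funext j
      exact hιX j
    have hΨC : ∀ r, Ψ (MvPowerSeries.C r) = MvPowerSeries.C r := by
      intro r
      apply E.injective
      rw [hEΨ, show E' (MvPowerSeries.C r) = PowerSeries.C (MvPowerSeries.C r) from
        MvPowerSeries.finSuccEquiv_C r, show E (MvPowerSeries.C r) =
        PowerSeries.C (MvPowerSeries.C r) from MvPowerSeries.finSuccEquiv_C r, PowerSeries.map_C]
      congr 1
      change ψ (algebraMap R _ r) = algebraMap R _ r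
      exact ψ.commutes r
    -- the new relation
    have hΨg : Ψ (gv (fun α => MvPowerSeries.C (s k α)) MvPowerSeries.X) =
        gv (fun α => MvPowerSeries.C (s k α))
          (Fin.cons (α := fun _ => MvPowerSeries (Fin (m + k + 1)) R)
            (MvPowerSeries.X (0 : Fin (m + k + 1)))
            (yv D k (Fin.tail (n := m + k) (α := fun _ => MvPowerSeries (Fin (m + k + 1)) R)
              MvPowerSeries.X))) := by
      rw [map_gv]
      congr 1
      · funext α
        exact hΨC _
      · funext i
        refine Fin.cases ?_ (fun i => ?_) i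
        · rw [Fin.cons_zero]; exact hΨX0
        · rw [Fin.cons_succ]; exact hΨXs i
    -- the algebra homomorphism ψ'
    let ψ' : MvPowerSeries (Fin m) R →ₐ[R] MvPowerSeries (Fin (m + k + 1)) R :=
      { toRingHom := Ψ.comp (θ : MvPowerSeries (Fin m) R →+* MvPowerSeries (Fin (m + 1)) R)
        commutes' := by
          intro r
          change Ψ (θ (algebraMap R _ r)) = algebraMap R _ r
          rw [θ.commutes]
          exact hΨC r }
    have hψ' : ∀ a, ψ' a = Ψ (θ a) := fun a => rfl
    refine ⟨ψ', n₀ * d, fun l => ι (b (finProdFinEquiv.symm l).1) *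
      MvPowerSeries.X (0 : Fin (m + k + 1)) ^ ((finProdFinEquiv.symm l).2 : ℕ), ?_, ?_⟩
    · intro i
      rw [hψ', hθ, map_sub, map_pow, hΨX0, hΨXs]
      rfl
    · intro f
      -- coefficients
      have h1 : ∀ j : ℕ, ∃ c : Fin n₀ → MvPowerSeries (Fin m) R,
          PowerSeries.coeff j (E f) - ∑ i, ψ (c i) * b i ∈
            Jt D (fun j α => MvPowerSeries.C (s j α)) k MvPowerSeries.X := fun j => hgen _
      choose c hc using h1
      let Cc : Fin n₀ → MvPowerSeries (Fin (m + 1)) R := fun i =>
        E'.symm (PowerSeries.mk fun j => c j i)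
      have hECc : ∀ i, E' (Cc i) = PowerSeries.mk fun j => c j i := fun i =>
        E'.apply_symm_apply _
      have h2 : f - ∑ i, Ψ (Cc i) * ι (b i) ∈
          Jt D (fun j α => MvPowerSeries.C (s j α)) k
            (Fin.tail (n := m + k) (α := fun _ => MvPowerSeries (Fin (m + k + 1)) R)
              MvPowerSeries.X) := by
        have h3 : f - ∑ i, Ψ (Cc i) * ι (b i) ∈
            (Jt D (fun j α => MvPowerSeries.C (s j α)) k
              (MvPowerSeries.X : Fin (m + k) → MvPowerSeries (Fin (m + k)) R)).map
              ((E.toRingEquiv.symm : PowerSeries (MvPowerSeries (Fin (m + k)) R) →+*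
                MvPowerSeries (Fin (m + k + 1)) R).comp (PowerSeries.C)) := by
          refine mem_map_C E.toRingEquiv _ (jt_fg D _ k _) _ fun j => ?_
          have h4 : PowerSeries.coeff j (E (f - ∑ i, Ψ (Cc i) * ι (b i))) =
              PowerSeries.coeff j (E f) - ∑ i, ψ (c j i) * b i := by
            rw [map_sub, map_sum, map_sub, map_sum]
            congr 1
            refine Finset.sum_congr rfl fun i _ => ?_
            rw [map_mul, hEΨ, hEι, hECc, PowerSeries.coeff_mul_C]
            simp
          have h5 := hc j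
          rw [← h4] at h5
          exact h5
        refine (Ideal.map_le_iff_le_comap.2 fun a ha => ?_ :
          Ideal.map ι (Jt D (fun j α => MvPowerSeries.C (s j α)) k
            (MvPowerSeries.X : Fin (m + k) → MvPowerSeries (Fin (m + k)) R)) ≤ _) h3
        rw [Ideal.mem_comap]
        have h6 := (hJ D m _ _ ι (fun j α => MvPowerSeries.C (s j α)) k MvPowerSeries.X).2.1 a ha
        have h7 : (fun (j : ℕ) (α : Fin (m + 1) → Fin (D j + 1)) =>
            ι (MvPowerSeries.C (s j α))) = fun j α => MvPowerSeries.C (s j α) := by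
          funext j α
          exact hιC _
        have h8 : (fun j => ι (MvPowerSeries.X j)) =
            Fin.tail (n := m + k) (α := fun _ => MvPowerSeries (Fin (m + k + 1)) R)
              MvPowerSeries.X := by
          funext j
          exact hιX j
        rw [h7, h8] at h6
        exact h6
      -- Weierstrass division of the coefficients
      have h9 : ∀ i, ∃ (q : MvPowerSeries (Fin (m + 1)) R)
          (r : Fin d → MvPowerSeries (Fin m) R),
          Cc i = q * gv (fun α => MvPowerSeries.C (s k α)) MvPowerSeries.X +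
            ∑ l, θ (r l) * MvPowerSeries.X 0 ^ (l : ℕ) := fun i => hdiv _
      choose q r hqr using h9
      refine ⟨fun l => r (finProdFinEquiv.symm l).1 (finProdFinEquiv.symm l).2, ?_⟩
      have h10 : ∀ i, Ψ (Cc i) = Ψ (q i) * gv (fun α => MvPowerSeries.C (s k α))
          (Fin.cons (α := fun _ => MvPowerSeries (Fin (m + k + 1)) R)
            (MvPowerSeries.X (0 : Fin (m + k + 1)))
            (yv D k (Fin.tail (n := m + k) (α := fun _ => MvPowerSeries (Fin (m + k + 1)) R)
              MvPowerSeries.X))) +
          ∑ l, ψ' (r i l) * MvPowerSeries.X (0 : Fin (m + k + 1)) ^ (l : ℕ) := by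
        intro i
        conv_lhs => rw [hqr i]
        rw [map_add, map_mul, hΨg, map_sum]
        congr 1
        refine Finset.sum_congr rfl fun l _ => ?_
        rw [map_mul, map_pow, hΨX0]
        rfl
      have h11 : ∑ l : Fin (n₀ * d), ψ' (r (finProdFinEquiv.symm l).1 (finProdFinEquiv.symm l).2) *
          (ι (b (finProdFinEquiv.symm l).1) *
            MvPowerSeries.X (0 : Fin (m + k + 1)) ^ ((finProdFinEquiv.symm l).2 : ℕ)) =
          ∑ i : Fin n₀, ∑ l : Fin d, ψ' (r i l) *
            (ι (b i) * MvPowerSeries.X (0 : Fin (m + k + 1)) ^ (l : ℕ)) := by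
        rw [← Finset.sum_product', Finset.univ_product_univ]
        exact (Fintype.sum_equiv finProdFinEquiv.symm _ _ fun l => rfl)
      have h12 : f - ∑ l : Fin (n₀ * d),
          ψ' (r (finProdFinEquiv.symm l).1 (finProdFinEquiv.symm l).2) *
          (ι (b (finProdFinEquiv.symm l).1) *
            MvPowerSeries.X (0 : Fin (m + k + 1)) ^ ((finProdFinEquiv.symm l).2 : ℕ)) =
          (f - ∑ i, Ψ (Cc i) * ι (b i)) + (∑ i, Ψ (q i) * ι (b i)) *
            gv (fun α => MvPowerSeries.C (s k α))
          (Fin.cons (α := fun _ => MvPowerSeries (Fin (m + k + 1)) R)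
            (MvPowerSeries.X (0 : Fin (m + k + 1)))
            (yv D k (Fin.tail (n := m + k) (α := fun _ => MvPowerSeries (Fin (m + k + 1)) R)
              MvPowerSeries.X))) := by
        rw [h11]
        have h13 : ∑ i, Ψ (Cc i) * ι (b i) = (∑ i, Ψ (q i) * ι (b i)) *
            gv (fun α => MvPowerSeries.C (s k α))
          (Fin.cons (α := fun _ => MvPowerSeries (Fin (m + k + 1)) R)
            (MvPowerSeries.X (0 : Fin (m + k + 1)))
            (yv D k (Fin.tail (n := m + k) (α := fun _ => MvPowerSeries (Fin (m + k + 1)) R)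
              MvPowerSeries.X))) + ∑ i : Fin n₀, ∑ l : Fin d, ψ' (r i l) *
            (ι (b i) * MvPowerSeries.X (0 : Fin (m + k + 1)) ^ (l : ℕ)) := by
          rw [Finset.sum_mul, ← Finset.sum_add_distrib]
          refine Finset.sum_congr rfl fun i _ => ?_
          rw [h10 i, add_mul, Finset.sum_mul]
          congr 1
          · ring
          · refine Finset.sum_congr rfl fun l _ => ?_
            ring
        rw [h13]
        ring
      rw [h12]
      refine Ideal.add_mem _ (Ideal.mem_sup_left h2) (Ideal.mem_sup_right ?_)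
      exact Ideal.mul_mem_left _ _ (Ideal.mem_span_singleton_self _)

end Pool.Agent.LRG.H7
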