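import Pool.Agent.LRG.StmtsB3

/-!
# Squad LRG, row PIG: pigeonhole
-/

set_option autoImplicit false

namespace Pool.Agent.LRG.H7

theorem pig : PigStmt := by
  classical
  intro P T M K₀ cls h
  obtain ⟨l, -, hl⟩ := Finset.exists_lt_card_fiber_of_mul_lt_card_of_maps_to
    (s := T) (t := (Finset.univ : Finset (Fin M))) (f := cls) (n := K₀)
    (fun a _ => Finset.mem_univ _) (by simpa using h)
  obtain ⟨S, hS, hc⟩ := Finset.exists_subset_card_eq (n := K₀ + 1) (Nat.succ_le_of_lt hl)
  let e := (Finset.equivFinOfCardEq hc).symm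
  refine ⟨fun a => (e a : P), fun a b hab => e.injective (Subtype.ext hab), fun a => ?_,
    fun a => ?_⟩
  · exact (Finset.mem_filter.1 (hS (e a).2)).1
  · rw [(Finset.mem_filter.1 (hS (e a).2)).2, (Finset.mem_filter.1 (hS (e 0).2)).2]

end Pool.Agent.LRG.H7
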